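import Pool.Agent.Lib.MP_672b21_co.Data

namespace Pool.Agent.Results.MP_672b21_co.NotThree

/-- There is a finite pairwise intersecting family of closed unit squares in the plane that no
set of at most three points hits. -/
theorem result :
    ∃ F : Finset (Set (EuclideanSpace ℝ (Fin 2))),
      (∀ S ∈ F, ∃ a u v : EuclideanSpace ℝ (Fin 2), ‖u‖ = 1 ∧ ‖v‖ = 1 ∧ inner ℝ u v = 0 ∧
        S = {p | ∃ s ∈ Set.Icc (0 : ℝ) 1, ∃ t ∈ Set.Icc (0 : ℝ) 1, p = a + s • u + t • v}) ∧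
      (∀ S ∈ F, ∀ T ∈ F, (S ∩ T).Nonempty) ∧
      ∀ P : Finset (EuclideanSpace ℝ (Fin 2)), P.card ≤ 3 → ∃ S ∈ F, ∀ p ∈ P, p ∉ S := by
  classical
  obtain ⟨F, -, h1, h2, h3⟩ := Pool.Agent.Lib.MP_672b21_co.main Pool.Agent.Lib.MP_672b21_co.KK_pos
    Pool.Agent.Lib.MP_672b21_co.unit_ok Pool.Agent.Lib.MP_672b21_co.pairs_ok
    Pool.Agent.Lib.MP_672b21_co.tree_ok
  refine ⟨F, h1, h2, fun P hP => ?_⟩
  have key : ∃ p q r : EuclideanSpace ℝ (Fin 2), ∀ x ∈ P, x = p ∨ x = q ∨ x = r := by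
    have hl : P.toList.length ≤ 3 := by simpa using hP
    have hm : ∀ x ∈ P, x ∈ P.toList := fun x hx => Finset.mem_toList.2 hx
    generalize P.toList = l at hl hm
    match l, hl, hm with
    | [], _, hm => exact ⟨0, 0, 0, fun x hx => by simpa using hm x hx⟩
    | [a], _, hm => exact ⟨a, a, a, fun x hx => by simpa using hm x hx⟩
    | [a, b], _, hm => exact ⟨a, b, b, fun x hx => by simpa using hm x hx⟩
    | [a, b, c], _, hm => exact ⟨a, b, c, fun x hx => by simpa using hm x hx⟩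
    | _ :: _ :: _ :: _ :: _, hl, _ =>
      simp only [List.length_cons] at hl
      omega
  obtain ⟨p, q, r, h⟩ := key
  obtain ⟨S, hS, a, b, c⟩ := h3 p q r
  refine ⟨S, hS, fun x hx => ?_⟩
  rcases h x hx with rfl | rfl | rfl
  · exact a
  · exact b
  · exact c

end Pool.Agent.Results.MP_672b21_co.NotThree
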